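import Mathlib

/-!
# Parity of the number of crossings, and countability of the set of local extreme values
-/

set_option autoImplicit false

open Set Filter Topology

namespace Pool.Agent.Y996.TK

lemma same_sign {f : ℝ → ℝ} (hf : Continuous f) {c b : ℝ} (hcb : c ≤ b)
    (hno : ∀ x ∈ Icc c b, f x ≠ 0) : 0 < f c ↔ 0 < f b := by
  constructor
  · intro h1
    by_contra h2
    obtain ⟨x, hx, h0⟩ := intermediate_value_Icc' hcb hf.continuousOn ⟨not_lt.1 h2, h1.le⟩
    exact hno x hx h0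
  · intro h1
    by_contra h2
    obtain ⟨x, hx, h0⟩ := intermediate_value_Icc hcb hf.continuousOn ⟨not_lt.1 h2, h1.le⟩
    exact hno x hx h0

/-- crossing parity: `f` continuous, `f c, f b ≠ 0`, finitely many zeros in `(c,b)`, none of which is
a local extremum; then the number of zeros is even iff the signs agree -/
theorem parity {f : ℝ → ℝ} (hf : Continuous f) {b : ℝ} (hb : f b ≠ 0) (n : ℕ) :
    ∀ c : ℝ, c < b → f c ≠ 0 → ∀ Z : Set ℝ, Z = {x | x ∈ Ioo c b ∧ f x = 0} → Z.encard = n →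
      (∀ z ∈ Z, ¬ IsLocalMax f z ∧ ¬ IsLocalMin f z) → (Even n ↔ (0 < f c ↔ 0 < f b)) := by
  induction n with
  | zero =>
    intro c hcb hc Z hZ hcard _
    have hemp : Z = ∅ := by simpa using hcard
    have hno : ∀ x ∈ Icc c b, f x ≠ 0 := by
      intro x hx h0
      have : x ∈ Z := by
        rw [hZ]
        refine ⟨⟨lt_of_le_of_ne hx.1 ?_, lt_of_le_of_ne hx.2 ?_⟩, h0⟩
        · rintro rfl; exact hc h0
        · rintro rfl; exact hb h0
      rw [hemp] at this
      exact this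
    exact ⟨fun _ => same_sign hf hcb.le hno, fun _ => ⟨0, rfl⟩⟩
  | succ n ih =>
    intro c hcb hc Z hZ hcard hloc
    have hfin : Z.Finite := finite_of_encard_eq_coe hcard
    have hne : Z.Nonempty := by
      rw [nonempty_iff_ne_empty]
      rintro h
      rw [h, encard_empty] at hcard
      exact absurd hcard.symm (by exact_mod_cast Nat.succ_ne_zero n)
    obtain ⟨z, hz, hzmin⟩ := Set.exists_min_image Z id hfin hne
    have hzI : z ∈ Ioo c b ∧ f z = 0 := by rw [hZ] at hz; exact hz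
    set Z' : Set ℝ := Z \ {z} with hZ'
    have hfin' : (insert b Z').Finite := (hfin.subset sdiff_subset).insert b
    obtain ⟨m, hm, hmmin⟩ := Set.exists_min_image (insert b Z') id hfin' ⟨b, mem_insert _ _⟩
    have hzm : z < m := by
      rcases hm with hm | hm
      · rw [hm]; exact hzI.1.2
      · exact lt_of_le_of_ne (hzmin m hm.1) (fun h => hm.2 h.symm)
    have hmb : m ≤ b := hmmin b (mem_insert _ _)
    have hno1 : ∀ x ∈ Ico c z, f x ≠ 0 := by
      intro x hx h0
      rcases hx.1.eq_or_lt with h | h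
      · rw [← h] at h0; exact hc h0
      · have h3 : x ∈ Z := by rw [hZ]; exact ⟨⟨h, hx.2.trans hzI.1.2⟩, h0⟩
        exact absurd (hzmin x h3) (not_le.2 hx.2)
    have hno2 : ∀ x ∈ Ioo z m, f x ≠ 0 := by
      intro x hx h0
      have h3 : x ∈ Z' :=
        ⟨by rw [hZ]; exact ⟨⟨hzI.1.1.trans hx.1, hx.2.trans_le hmb⟩, h0⟩, ne_of_gt hx.1⟩
      exact absurd (hmmin x (mem_insert_of_mem _ h3)) (not_le.2 hx.2)
    have hs1 : ∀ x ∈ Ico c z, (0 < f c ↔ 0 < f x) := fun x hx =>
      same_sign hf hx.1 (fun y hy => hno1 y ⟨hy.1, hy.2.trans_lt hx.2⟩)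
    obtain ⟨d, hd, hds⟩ : ∃ d ∈ Ioo z m, (0 < f d ↔ ¬ 0 < f c) := by
      by_contra hcon
      have hnb : Ioo c m ∈ 𝓝 z := Ioo_mem_nhds hzI.1.1 hzm
      have hd' : ∀ x ∈ Ioo z m, (0 < f x ↔ 0 < f c) := by
        intro x hx
        by_contra h
        exact hcon ⟨x, hx, by tauto⟩
      by_cases h : 0 < f c
      · apply (hloc z hz).2
        filter_upwards [hnb] with x hx
        rw [hzI.2]
        rcases lt_trichotomy x z with h1 | h1 | h1
        · exact ((hs1 x ⟨hx.1.le, h1⟩).1 h).le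
        · rw [h1, hzI.2]
        · exact ((hd' x ⟨h1, hx.2⟩).2 h).le
      · apply (hloc z hz).1
        filter_upwards [hnb] with x hx
        rw [hzI.2]
        rcases lt_trichotomy x z with h1 | h1 | h1
        · exact not_lt.1 (fun h2 => h ((hs1 x ⟨hx.1.le, h1⟩).2 h2))
        · rw [h1, hzI.2]
        · exact not_lt.1 (fun h2 => h ((hd' x ⟨h1, hx.2⟩).1 h2))
    have hcard' : Z'.encard = n := by
      have h3 := Set.encard_sdiff_singleton_add_one hz
      rw [hcard] at h3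
      push_cast at h3
      exact ENat.add_left_injective_of_ne_top ENat.one_ne_top h3
    have hZd : Z' = {x | x ∈ Ioo d b ∧ f x = 0} := by
      ext x
      constructor
      · rintro ⟨h1, h2⟩
        have h3 : m ≤ x := hmmin x (mem_insert_of_mem _ ⟨h1, h2⟩)
        rw [hZ] at h1
        exact ⟨⟨hd.2.trans_le h3, h1.1.2⟩, h1.2⟩
      · rintro ⟨h1, h2⟩
        refine ⟨by rw [hZ]; exact ⟨⟨hzI.1.1.trans (hd.1.trans h1.1), h1.2⟩, h2⟩, ?_⟩
        exact ne_of_gt (hd.1.trans h1.1)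
    have h5 := ih d (hd.2.trans_le hmb) (hno2 d hd) Z' hZd hcard' (fun w hw => hloc w hw.1)
    rw [Nat.even_add_one, h5]
    tauto

/-- the local extreme values of a real function form a countable set -/
lemma countable_extr (g : ℝ → ℝ) :
    {y | ∃ x, (IsLocalMax g x ∨ IsLocalMin g x) ∧ g x = y}.Countable := by
  have h1 : {y | ∃ x, (IsLocalMax g x ∨ IsLocalMin g x) ∧ g x = y} ⊆
      range (fun p : ℚ × ℚ => sSup (g '' Ioo (p.1 : ℝ) p.2)) ∪
        range (fun p : ℚ × ℚ => sInf (g '' Ioo (p.1 : ℝ) p.2)) := by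
    rintro y ⟨x, h | h, rfl⟩
    · left
      obtain ⟨l, u, hx, hlu⟩ := mem_nhds_iff_exists_Ioo_subset.1 h
      obtain ⟨q1, h1, h2⟩ := exists_rat_btwn hx.1
      obtain ⟨q2, h3, h4⟩ := exists_rat_btwn hx.2
      refine ⟨(q1, q2), ?_⟩
      apply IsGreatest.csSup_eq
      refine ⟨⟨x, ⟨h2, h3⟩, rfl⟩, ?_⟩
      rintro _ ⟨t, ht, rfl⟩
      exact hlu ⟨h1.trans ht.1, ht.2.trans h4⟩
    · right
      obtain ⟨l, u, hx, hlu⟩ := mem_nhds_iff_exists_Ioo_subset.1 h
      obtain ⟨q1, h1, h2⟩ := exists_rat_btwn hx.1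
      obtain ⟨q2, h3, h4⟩ := exists_rat_btwn hx.2
      refine ⟨(q1, q2), ?_⟩
      apply IsLeast.csInf_eq
      refine ⟨⟨x, ⟨h2, h3⟩, rfl⟩, ?_⟩
      rintro _ ⟨t, ht, rfl⟩
      exact hlu ⟨h1.trans ht.1, ht.2.trans h4⟩
  exact ((countable_range _).union (countable_range _)).mono h1

end Pool.Agent.Y996.TK
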